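import Mathlib
import Pool.Agent.Work.MP_b9f336_ag.Main

set_option autoImplicit false

namespace Pool.Agent.Results.MP_b9f336_ag.UnboundedFacetsRank3

open MvPolynomial

/-- The lattice ideal `I_L`, spanned by the binomials `x^{u⁺} - x^{u⁻}` for `u ∈ L`. -/
noncomputable def toricIdeal {n : ℕ} (L : Submodule ℤ (Fin n → ℤ)) :
    Ideal (MvPolynomial (Fin n) ℚ) :=
  Ideal.span {p | ∃ u ∈ L, p =
    monomial (Finsupp.equivFunOnFinite.symm (fun i => (u i).toNat)) (1 : ℚ)
      - monomial (Finsupp.equivFunOnFinite.symm (fun i => (-u i).toNat)) (1 : ℚ)}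

/-- The `w`-initial form: the sum of the terms of maximal `w`-weight. -/
noncomputable def initialForm {n : ℕ} (w : Fin n → ℝ) (f : MvPolynomial (Fin n) ℚ) :
    MvPolynomial (Fin n) ℚ :=
  ∑ m ∈ f.support.filter (fun m => ∀ m' ∈ f.support,
      ∑ i, w i * ((m' i : ℕ) : ℝ) ≤ ∑ i, w i * ((m i : ℕ) : ℝ)), monomial m (coeff m f)

/-- The closed chamber of the Groebner fan of `I` belonging to the lexicographic order. -/
noncomputable def lexChamber {n : ℕ} (I : Ideal (MvPolynomial (Fin n) ℚ)) : Set (Fin n → ℝ) :=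
  closure {w | Ideal.span {g | ∃ f ∈ I, g = initialForm w f} =
    Ideal.span {g | ∃ f ∈ I, f ≠ 0 ∧
      g = monomial ((MonomialOrder.lex (σ := Fin n)).degree f) (1 : ℚ)}}

/-- `F` is a facet of the cone `C`: an exposed face of codimension one in the span of `C`. -/
def IsFacet {n : ℕ} (C F : Set (Fin n → ℝ)) : Prop :=
  ∃ c : Fin n → ℝ, (∀ w ∈ C, 0 ≤ ∑ i, c i * w i) ∧ F = {w | w ∈ C ∧ ∑ i, c i * w i = 0} ∧
    Module.finrank ℝ (Submodule.span ℝ F) + 1 = Module.finrank ℝ (Submodule.span ℝ C)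

/-- For every `N` there is a saturated rank three lattice meeting the nonnegative orthant only in
`0` such that the chamber of the lexicographic order in the Groebner fan of its toric ideal has
at least `N` facets. -/
theorem result : ∀ N : ℕ, ∃ (n : ℕ) (L : Submodule ℤ (Fin n → ℤ)),
    Module.finrank ℤ L = 3 ∧
    (∀ v : Fin n → ℤ, ∀ c : ℤ, c ≠ 0 → c • v ∈ L → v ∈ L) ∧
    (∀ v ∈ L, (∀ i, 0 ≤ v i) → v = 0) ∧
    (N : ℕ∞) ≤ Set.encard {F | IsFacet (lexChamber (toricIdeal L)) F} := by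
  intro N
  refine ⟨4 * (N + 1) + 9, Work.MP_b9f336_ag.Lat (N + 1) (4 * (N + 1) + 9),
    Work.MP_b9f336_ag.finrank_Lat _ _ (by omega),
    Work.MP_b9f336_ag.Lat_saturated _ _ (by omega),
    Work.MP_b9f336_ag.Lat_pointed _ _ (by omega), ?_⟩
  have h := Work.MP_b9f336_ag.facet_count.{0} (N + 1) (4 * (N + 1) + 9) (by omega) rfl
    (lexChamber (toricIdeal (Work.MP_b9f336_ag.Lat (N + 1) (4 * (N + 1) + 9)))) ?_
  · refine le_trans ?_ h
    exact_mod_cast Nat.le_succ N
  · unfold lexChamber Work.MP_b9f336_ag.Tc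
    congr 1
    ext w
    have e : Work.MP_b9f336_ag.inO (MonomialOrder.lex (σ := Fin (4 * (N + 1) + 9)))
        (Work.MP_b9f336_ag.latIdeal (Work.MP_b9f336_ag.Lat (N + 1) (4 * (N + 1) + 9))) =
        Work.MP_b9f336_ag.inO (Work.MP_b9f336_ag.lexU.{0} (4 * (N + 1) + 9))
        (Work.MP_b9f336_ag.latIdeal (Work.MP_b9f336_ag.Lat (N + 1) (4 * (N + 1) + 9))) := by
      unfold Work.MP_b9f336_ag.inO
      congr 1
      ext g
      have hd : ∀ f : MvPolynomial (Fin (4 * (N + 1) + 9)) ℚ, f ≠ 0 →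
          (MonomialOrder.lex (σ := Fin (4 * (N + 1) + 9))).degree f =
          (Work.MP_b9f336_ag.lexU.{0} (4 * (N + 1) + 9)).degree f := by
        intro f hf
        set o1 := (MonomialOrder.lex (σ := Fin (4 * (N + 1) + 9)))
        set o2 := (Work.MP_b9f336_ag.lexU.{0} (4 * (N + 1) + 9))
        have h1 := o1.degree_mem_support hf
        have h2 := o2.degree_mem_support hf
        have h3 : toLex (o2.degree f) ≤ toLex (o1.degree f) := o1.le_degree h2
        have h4 : toLex (o1.degree f) ≤ toLex (o2.degree f) := o2.le_degree h1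
        exact toLex.injective (le_antisymm h4 h3)
      constructor
      · rintro ⟨f, hf, hf0, rfl⟩
        exact ⟨f, hf, hf0, by rw [hd f hf0]⟩
      · rintro ⟨f, hf, hf0, rfl⟩
        exact ⟨f, hf, hf0, by rw [hd f hf0]⟩
    constructor
    · intro hw
      exact Eq.trans hw e
    · intro hw
      exact Eq.trans hw e.symm

end Pool.Agent.Results.MP_b9f336_ag.UnboundedFacetsRank3
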